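import Pool.Agent.Lib.HS32.B_IBPE

/-! A logarithmic cut-off argument: a continuous function that is nearly a derivative of small
functions vanishes. -/

open scoped Classical Topology ENNReal ContDiff
open Set MeasureTheory Complex Metric Filter

noncomputable section

namespace Pool.Agent.Lib.K94

open Pool.Agent.Lib.SV (E)
open Pool.Agent.Lib.HS32

/-- A function of integral zero can be dropped from an inequality. -/
theorem drop {X : Type} [MeasurableSpace X] {μ : Measure X} {h p r : X → ℝ}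
    (hi : Integrable h μ) (h0 : ∫ x, h x ∂μ = 0)
    (hle : ∀ᵐ x ∂μ, 0 ≤ p x ∧ 0 ≤ r x ∧ p x + h x ≤ r x) :
    ∫⁻ x, ENNReal.ofReal (p x) ∂μ ≤ ∫⁻ x, ENNReal.ofReal (r x) ∂μ := by
  have f1 : ∫⁻ x, ENNReal.ofReal (h x) ∂μ ≠ ⊤ := hi.lintegral_lt_top.ne
  have f2 : ∫⁻ x, ENNReal.ofReal (-h x) ∂μ ≠ ⊤ := hi.neg.lintegral_lt_top.ne
  have e : ∫⁻ x, ENNReal.ofReal (h x) ∂μ = ∫⁻ x, ENNReal.ofReal (-h x) ∂μ := by
    rw [integral_eq_lintegral_pos_part_sub_lintegral_neg_part hi, sub_eq_zero] at h0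
    exact (ENNReal.toReal_eq_toReal_iff' f1 f2).mp h0
  have m1 : AEMeasurable (fun x => ENNReal.ofReal (h x)) μ := hi.aemeasurable.ennreal_ofReal
  have m2 : AEMeasurable (fun x => ENNReal.ofReal (-h x)) μ := hi.aemeasurable.neg.ennreal_ofReal
  refine (ENNReal.add_le_add_iff_right f1).mp ?_
  nth_rewrite 2 [e]
  rw [← lintegral_add_right' _ m1, ← lintegral_add_right' _ m2]
  refine lintegral_mono_ae (hle.mono fun x hx => ?_)
  obtain ⟨a, b, c⟩ := hx
  rcases le_total 0 (h x) with d | d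
  · rw [← ENNReal.ofReal_add a d]
    exact le_add_right (ENNReal.ofReal_le_ofReal c)
  · rw [ENNReal.ofReal_of_nonpos d, add_zero, ← ENNReal.ofReal_add b (by linarith)]
    exact ENNReal.ofReal_le_ofReal (by linarith)

theorem lg {q τ : ℝ} (h0 : 0 ≤ q) (h1 : q ≤ 1) (t0 : 0 < τ) (t1 : τ ≤ 1) :
    0 ≤ Real.log 2 - Real.log (q + τ) ∧ (Real.log 2 - Real.log (q + τ)) * √q ≤ 3 := by
  have p : 0 < q + τ := by linarith
  refine ⟨sub_nonneg.mpr (Real.log_le_log p (by linarith)), ?_⟩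
  have s0 : 0 < √(q + τ) := Real.sqrt_pos.mpr p
  have a1 : -Real.log (q + τ) ≤ 2 * (√(q + τ))⁻¹ := by
    have := Real.log_le_sub_one_of_pos (inv_pos.mpr s0)
    rw [Real.log_inv, Real.log_sqrt p.le] at this
    linarith
  have a2 : (√(q + τ))⁻¹ * √q ≤ 1 := by
    rw [inv_mul_le_iff₀ s0, mul_one]
    exact Real.sqrt_le_sqrt (by linarith)
  have a3 : √q ≤ 1 := Real.sqrt_le_one.mpr h1
  have a4 : Real.log 2 ≤ 1 := by have := Real.log_le_sub_one_of_pos two_pos; linarith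
  have a5 : 0 ≤ √q := Real.sqrt_nonneg q
  nlinarith [mul_le_mul_of_nonneg_right a1 a5, mul_le_mul_of_nonneg_right a4 a5]

/-- The pointwise estimate. -/
theorem pt {n : ℕ} {l : Fin n} {z : E n} {s : E n → ℂ} {χ φ q : E n → ℝ} {W : ℂ}
    {C D R τ : ℝ} (hs : ContDiffAt ℝ ∞ s z) (hχ : ContDiffAt ℝ ∞ χ z) (hφ : ContDiffAt ℝ ∞ φ z)
    (hq : ContDiffAt ℝ ∞ q z) (c0 : 0 ≤ χ z) (c1 : χ z ≤ 1)
    (c2 : ‖dzb l (fun w => (χ w : ℂ)) z‖ ≤ D) (t0 : 0 < τ) (t1 : τ ≤ 1) (hC : 0 ≤ C)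
    (p0 : φ z ≤ 0) (q0 : 0 ≤ q z) (q1 : q z ≤ 1) (b0 : ‖s z‖ ≤ C * √(q z))
    (b1 : Real.exp (φ z / 2) * ‖dzb l s z + W‖ ≤ √(q z) * R)
    (b2 : Real.exp (φ z / 2) * ‖dzb l (fun w => (q w : ℂ)) z‖ ≤ √(q z) * R)
    (b3 : Real.exp (φ z / 2) * ‖dzb l (fun w => (φ w : ℂ)) z‖ ≤ R) :
    ContDiffAt ℝ ∞ (fun w => (χ w : ℂ) * ((Real.exp (φ w / 2) : ℝ) *
      (((Real.log 2 - Real.log (q w + τ) : ℝ) : ℂ) * s w))) z ∧
    ‖dzb l (fun w => (χ w : ℂ) * ((Real.exp (φ w / 2) : ℝ) *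
      (((Real.log 2 - Real.log (q w + τ) : ℝ) : ℂ) * s w))) z +
      ((χ z * (Real.exp (φ z / 2) * (Real.log 2 - Real.log (q z + τ))) : ℝ) : ℂ) * W‖ ≤
      3 * D * C + (3 * C + 3) * R := by
  have p : 0 < q z + τ := by linarith
  have s1 := cd_ofReal hχ
  have s2 : ContDiffAt ℝ ∞ (fun w => ((Real.exp (φ w / 2) : ℝ) : ℂ)) z :=
    cd_ofReal (hφ.div_const 2).exp
  have s3 : ContDiffAt ℝ ∞ (fun w => ((Real.log 2 - Real.log (q w + τ) : ℝ) : ℂ)) z :=
    cd_ofReal (contDiffAt_const.sub ((hq.add contDiffAt_const).log p.ne'))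
  refine ⟨s1.mul (s2.mul (s3.mul hs)), ?_⟩
  have d2 := dzb_comp_real (j := l) (φ := fun t => Real.exp (t / 2))
    (((hasDerivAt_id (φ z)).div_const 2).exp) (cd_diff hφ)
  have d3 := dzb_comp_real (j := l) (φ := fun t => Real.log 2 - Real.log (t + τ))
    ((((hasDerivAt_id (q z)).add_const τ).log p.ne').const_sub (Real.log 2)) (cd_diff hq)
  rw [dzb_mul (cd_diff s1) (cd_diff (s2.mul (s3.mul hs))), dzb_mul (cd_diff s2)
    (cd_diff (s3.mul hs)), dzb_mul (cd_diff s3) (cd_diff hs), d2, d3]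
  obtain ⟨g0, g1⟩ := lg q0 q1 t0 t1
  simp only [id] at *
  set e := Real.exp (φ z / 2) with he
  set g := Real.log 2 - Real.log (q z + τ) with hg
  set a := dzb l (fun w => (χ w : ℂ)) z
  set b := dzb l (fun w => (φ w : ℂ)) z
  set c := dzb l (fun w => (q w : ℂ)) z
  have e0 : 0 < e := Real.exp_pos _
  have e1 : e ≤ 1 := Real.exp_le_one_iff.mpr (by linarith)
  have R0 : 0 ≤ R := le_trans (by positivity) b3
  have D0 : 0 ≤ D := le_trans (norm_nonneg _) c2
  have r0 : 0 ≤ √(q z) := Real.sqrt_nonneg _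
  have r2 : √(q z) * √(q z) = q z := Real.mul_self_sqrt q0
  have gs : g * ‖s z‖ ≤ 3 * C := by nlinarith [mul_le_mul_of_nonneg_left b0 g0]
  have n1 : ‖((e * g : ℝ) : ℂ) * (a * s z)‖ ≤ 3 * D * C := by
    rw [norm_mul, norm_mul, Complex.norm_real, Real.norm_of_nonneg (by positivity)]
    calc e * g * (‖a‖ * ‖s z‖) = e * (‖a‖ * (g * ‖s z‖)) := by ring
      _ ≤ 1 * (D * (3 * C)) := by gcongr
      _ = _ := by ring
  have n2 : ‖((χ z * (e * (1 / 2)) * g : ℝ) : ℂ) * (b * s z)‖ ≤ 2 * C * R := by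
    rw [norm_mul, norm_mul, Complex.norm_real, Real.norm_of_nonneg (by positivity)]
    calc χ z * (e * (1 / 2)) * g * (‖b‖ * ‖s z‖) = χ z * (e * ‖b‖ * (g * ‖s z‖)) / 2 := by ring
      _ ≤ 1 * (R * (3 * C)) / 2 := by gcongr
      _ ≤ _ := by nlinarith [mul_nonneg hC R0]
  have n3 : ‖-(((χ z * e * (1 / (q z + τ)) : ℝ) : ℂ) * (c * s z))‖ ≤ C * R := by
    rw [norm_neg, norm_mul, norm_mul, Complex.norm_real, Real.norm_of_nonneg (by positivity)]
    calc χ z * e * (1 / (q z + τ)) * (‖c‖ * ‖s z‖) = χ z * (e * ‖c‖ * ‖s z‖) / (q z + τ) := by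
          ring
      _ ≤ 1 * (√(q z) * R * (C * √(q z))) / (q z + τ) := by gcongr
      _ = C * R * (q z / (q z + τ)) := by linear_combination (C * R / (q z + τ)) * r2
      _ ≤ C * R * 1 := by gcongr; rw [div_le_one p]; linarith
      _ = _ := mul_one _
  have n4 : ‖((χ z * e * g : ℝ) : ℂ) * (dzb l s z + W)‖ ≤ 3 * R := by
    rw [norm_mul, Complex.norm_real, Real.norm_of_nonneg (by positivity)]
    calc χ z * e * g * ‖dzb l s z + W‖ = χ z * (g * (e * ‖dzb l s z + W‖)) := by ring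
      _ ≤ 1 * (g * (√(q z) * R)) := by gcongr
      _ ≤ _ := by nlinarith [mul_le_mul_of_nonneg_right g1 R0]
  have := norm_add_le_of_le (norm_add_le_of_le (norm_add_le_of_le n1 n2) n3) n4
  refine le_trans (le_of_eq (congrArg norm ?_)) (this.trans (le_of_eq (by ring)))
  push_cast
  ring

/-- The cut-off argument. -/
theorem cut {n : ℕ} {ι : Type} (L : Filter ι) [L.NeBot] {U : Set (E n)} (hU : IsOpen U) (C : ℝ)
    (l : Fin n) (W : E n → ℂ) (s : ι → E n → ℂ) (φ q R : ι → E n → ℝ) (hW : ContinuousOn W U)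
    (hs : ∀ a, ∀ z ∈ U, ContDiffAt ℝ ∞ (s a) z ∧ ContDiffAt ℝ ∞ (φ a) z ∧
      ContDiffAt ℝ ∞ (q a) z ∧ φ a z ≤ 0 ∧ 0 ≤ q a z ∧ q a z ≤ 1 ∧ ‖s a z‖ ≤ C * √(q a z) ∧
      Real.exp (φ a z / 2) * ‖dzb l (s a) z + W z‖ ≤ √(q a z) * R a z ∧
      Real.exp (φ a z / 2) * ‖dzb l (fun w => (q a w : ℂ)) z‖ ≤ √(q a z) * R a z ∧
      Real.exp (φ a z / 2) * ‖dzb l (fun w => (φ a w : ℂ)) z‖ ≤ R a z)
    (h1 : ∀ a, ∫⁻ z in U, ENNReal.ofReal (R a z) ≤ ENNReal.ofReal C)
    (h2 : ∀ a, ∀ A : ℝ, 0 < A → volume {z | z ∈ U ∧ φ a z < -A} ≤ ENNReal.ofReal (C / A))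
    (h3 : Tendsto (fun a => ∫⁻ z in U, ENNReal.ofReal (Real.exp (φ a z) * q a z ^ 2)) L (𝓝 0)) :
    ∀ z ∈ U, W z = 0 := by
  intro z₀ hz₀
  by_contra hne
  have w0 : 0 < ‖W z₀‖ := norm_pos_iff.mpr hne
  obtain ⟨δ, δ0, hδ⟩ : ∃ δ > 0, ∀ z ∈ ball z₀ (3 * δ), z ∈ U ∧ ‖W z - W z₀‖ < ‖W z₀‖ / 2 := by
    have e2 : ∀ᶠ z in 𝓝 z₀, ‖W z - W z₀‖ < ‖W z₀‖ / 2 := by
      have := (hW.continuousAt (hU.mem_nhds hz₀)).eventually
        (ball_mem_nhds (W z₀) (half_pos w0))
      simpa only [mem_ball, dist_eq_norm] using this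
    obtain ⟨r, r0, hr⟩ := Metric.eventually_nhds_iff_ball.mp ((hU.eventually_mem hz₀).and e2)
    exact ⟨r / 3, by positivity, fun z hz => hr z (by rwa [mul_div_cancel₀ r three_ne_zero] at hz)⟩
  let χ : ContDiffBump z₀ := ⟨δ, 2 * δ, δ0, by linarith⟩
  have χs : ∀ z, ContDiffAt ℝ ∞ χ z := fun z => χ.contDiff.contDiffAt
  obtain ⟨D, hD⟩ := (isCompact_closedBall z₀ (3 * δ)).exists_bound_of_continuousOn
    (f := dzb l fun w => (χ w : ℂ)) fun z _ =>
      (((cd_fderiv (cd_ofReal (χs z)) _).add (contDiffAt_const.mul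
        (cd_fderiv (cd_ofReal (χs z)) _))).div_const 2).continuousAt.continuousWithinAt
  have D0 : 0 ≤ D := (norm_nonneg _).trans (hD z₀ (mem_closedBall_self (by positivity)))
  set B := ball z₀ (3 * δ) with hB
  have BU : B ⊆ U := fun z hz => (hδ z hz).1
  set C₁ := max C 1 with hC₁
  have C0 : 0 < C₁ := lt_max_of_lt_right one_pos
  have C1 : C ≤ C₁ := le_max_left _ _
  set K : ℝ := 2 * (3 * D * C₁) * (volume B).toReal + 2 * (3 * C₁ + 3) * C₁ with hK
  have K0 : 0 < K := by positivity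
  have up : ∀ a (τ : ℝ), 0 < τ → τ ≤ 1 → ∫⁻ z in B, ENNReal.ofReal (‖W z₀‖ * (χ z *
      (Real.exp (φ a z / 2) * (Real.log 2 - Real.log (q a z + τ))))) ≤ ENNReal.ofReal K := by
    intro a τ t0 t1
    have P := fun z (hz : z ∈ B) =>
      let ⟨a1, a2, a3, a4, a5, a6, a7, a8, a9, a10⟩ := hs a z (BU hz)
      pt (C := C₁) a1 (χs z) a2 a3 χ.nonneg χ.le_one (hD z (ball_subset_closedBall hz)) t0 t1
        C0.le a4 a5 a6 (a7.trans (mul_le_mul_of_nonneg_right C1 (Real.sqrt_nonneg _))) a8 a9 a10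
    obtain ⟨-, i1, -, i2⟩ := stIBPE n B (closedBall z₀ (2 * δ)) _ isOpen_ball
      (isCompact_closedBall _ _) (closedBall_subset_ball (by linarith)) (fun z hz => (P z hz).1)
      (fun z _ hz => by
        rw [χ.zero_of_le_dist (le_of_lt (by simpa using hz)), Complex.ofReal_zero, zero_mul]) l
    set F := dzb l fun w => (χ w : ℂ) * ((Real.exp (φ a w / 2) : ℝ) *
      (((Real.log 2 - Real.log (q a w + τ) : ℝ) : ℂ) * s a w)) with hF
    set u : ℂ := 2 * star (W z₀) / ‖W z₀‖ with hu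
    have un : ‖u‖ = 2 := by
      rw [hu, norm_div, norm_mul, norm_star, Complex.norm_real, norm_norm]
      field_simp
      simp
    have uw : u * W z₀ = ((2 * ‖W z₀‖ : ℝ) : ℂ) := by
      have : (‖W z₀‖ : ℂ) ≠ 0 := by exact_mod_cast w0.ne'
      rw [hu, Complex.star_def]
      push_cast
      field_simp
      rw [Complex.conj_mul']
    have R0 : ∀ z ∈ B, 0 ≤ R a z := fun z hz =>
      le_trans (by positivity) (hs a z (BU hz)).2.2.2.2.2.2.2.2.2
    refine (drop (h := fun z => (u * F z).re)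
      (r := fun z => 2 * (3 * D * C₁) + 2 * (3 * C₁ + 3) * R a z) (i1.const_mul u).re
      (by
        have := integral_re (i1.const_mul u)
        rw [integral_const_mul, i2] at this
        simpa using this)
      (ae_restrict_of_forall_mem measurableSet_ball fun z hz => ?_)).trans ?_
    · obtain ⟨-, -, -, -, a5, a6, -⟩ := hs a z (BU hz)
      have g0 := (lg a5 a6 t0 t1).1
      have x0 : 0 ≤ χ z := χ.nonneg
      have r0 := R0 z hz
      have b1 := (P z hz).2
      set p := χ z * (Real.exp (φ a z / 2) * (Real.log 2 - Real.log (q a z + τ))) with hp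
      have p0 : 0 ≤ p := by positivity
      refine ⟨by positivity, by positivity, ?_⟩
      have b2 := Complex.re_le_norm (u * (F z + p * W z))
      have b3 := Complex.re_le_norm (-(u * (W z - W z₀)))
      rw [norm_neg, norm_mul, un] at b3
      rw [norm_mul, un] at b2
      have b4 : u * (F z + p * W z) =
          u * F z + p * ((2 * ‖W z₀‖ : ℝ) : ℂ) - p * -(u * (W z - W z₀)) := by
        rw [← uw]; ring
      rw [b4, Complex.sub_re, Complex.add_re, Complex.re_ofReal_mul, Complex.re_ofReal_mul,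
        Complex.ofReal_re] at b2
      nlinarith [mul_le_mul_of_nonneg_left b3 p0, mul_le_mul_of_nonneg_left (hδ z hz).2.le p0]
    · rw [setLIntegral_congr_fun measurableSet_ball (g := fun z => ENNReal.ofReal
        (2 * (3 * D * C₁)) + ENNReal.ofReal (2 * (3 * C₁ + 3)) * ENNReal.ofReal (R a z))
        fun z hz => by
          have := R0 z hz
          simp only
          rw [ENNReal.ofReal_add (by positivity) (by positivity),
            ENNReal.ofReal_mul (p := 2 * (3 * C₁ + 3)) (by positivity)],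
        lintegral_add_left measurable_const, lintegral_const_mul' _ _ ENNReal.ofReal_ne_top,
        setLIntegral_const, hK, ENNReal.ofReal_add (by positivity) (by positivity),
        ENNReal.ofReal_mul (p := 2 * (3 * D * C₁)) (by positivity),
        ENNReal.ofReal_mul (p := 2 * (3 * C₁ + 3)) (by positivity),
        ENNReal.ofReal_toReal measure_ball_lt_top.ne]
      gcongr
      exact (lintegral_mono_set BU).trans ((h1 a).trans (ENNReal.ofReal_le_ofReal C1))
  have key : ∀ η : ℝ, 0 < η → volume (ball z₀ δ) ≤ ENNReal.ofReal (3 * η) := by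
    intro η η0
    set A := C₁ / η with hA
    have A0 : 0 < A := by positivity
    set T := K / (‖W z₀‖ * Real.exp (-A / 2) * η) with hT
    have T0 : 0 < T := by positivity
    set τ := Real.exp (-T) with hτ
    have t0 : 0 < τ := Real.exp_pos _
    have t1 : τ ≤ 1 := Real.exp_le_one_iff.mpr (by linarith)
    obtain ⟨a, ha⟩ := (h3.eventually (ge_mem_nhds (a := ENNReal.ofReal (Real.exp (-A) * τ ^ 2 * η))
      (ENNReal.ofReal_pos.mpr (by positivity)))).exists
    have c1 : ContinuousOn (φ a) B := fun z hz =>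
      (hs a z (BU hz)).2.1.continuousAt.continuousWithinAt
    have c2 : ContinuousOn (q a) B := fun z hz =>
      (hs a z (BU hz)).2.2.1.continuousAt.continuousWithinAt
    have mk : ∀ (f : E n → ℝ) (c : ℝ), 0 < c → ContinuousOn f B →
        ∫⁻ z in B, ENNReal.ofReal (f z) ≤ ENNReal.ofReal (c * η) →
        volume.restrict B {z | ENNReal.ofReal c ≤ ENNReal.ofReal (f z)} ≤ ENNReal.ofReal η := by
      intro f c c0 hf hi
      refine (meas_ge_le_lintegral_div (hf.aemeasurable measurableSet_ball).ennreal_ofReal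
        (ENNReal.ofReal_pos.mpr c0).ne' ENNReal.ofReal_ne_top).trans ?_
      refine ENNReal.div_le_of_le_mul' ?_
      rwa [← ENNReal.ofReal_mul c0.le]
    have m1 : volume.restrict B {z | z ∈ U ∧ φ a z < -A} ≤ ENNReal.ofReal η := by
      refine (Measure.restrict_le_self _).trans ((h2 a A A0).trans (ENNReal.ofReal_le_ofReal ?_))
      rw [div_le_iff₀ A0, hA, mul_div_cancel₀ _ η0.ne']
      exact C1
    have m2 := mk (fun z => Real.exp (φ a z) * q a z ^ 2) (Real.exp (-A) * τ ^ 2) (by positivity)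
      (c1.rexp.mul (c2.pow 2)) ((lintegral_mono_set BU).trans ha)
    have m3 := mk (fun z => ‖W z₀‖ * (χ z * (Real.exp (φ a z / 2) *
      (Real.log 2 - Real.log (q a z + τ))))) (‖W z₀‖ * (Real.exp (-A / 2) * T)) (by positivity)
      (continuousOn_const.mul (χ.continuous.continuousOn.mul ((c1.div_const 2).rexp.mul
        (continuousOn_const.sub ((c2.add continuousOn_const).log fun z hz =>
          (add_pos_of_nonneg_of_pos (hs a z (BU hz)).2.2.2.2.1 t0).ne')))))
      ((up a τ t0 t1).trans (le_of_eq (congrArg _ (by rw [hT]; field_simp))))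
    have sb : ball z₀ δ ⊆ B := ball_subset_ball (by linarith)
    rw [← Measure.restrict_eq_self volume sb, show 3 * η = η + η + η by ring,
      ENNReal.ofReal_add (by positivity) η0.le, ENNReal.ofReal_add η0.le η0.le]
    refine le_trans (measure_mono fun z hz => ?_) ((measure_union_le _ _).trans
      (add_le_add ((measure_union_le _ _).trans (add_le_add m1 m2)) m3))
    have zU := BU (sb hz)
    by_cases x1 : φ a z < -A
    · exact Or.inl (Or.inl ⟨zU, x1⟩)
    have x1 := not_lt.mp x1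
    have q0 := (hs a z zU).2.2.2.2.1
    by_cases x2 : τ ≤ q a z
    · refine Or.inl (Or.inr (ENNReal.ofReal_le_ofReal ?_))
      gcongr
    have x2 := not_le.mp x2
    refine Or.inr (ENNReal.ofReal_le_ofReal ?_)
    rw [χ.one_of_mem_closedBall (ball_subset_closedBall hz), one_mul]
    have x3 : T ≤ Real.log 2 - Real.log (q a z + τ) := by
      have := Real.log_le_log (by linarith) (show q a z + τ ≤ 2 * τ by linarith)
      rw [Real.log_mul two_ne_zero t0.ne', hτ, Real.log_exp, ← hτ] at this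
      linarith
    gcongr
  have v0 : 0 < (volume (ball z₀ δ)).toReal :=
    ENNReal.toReal_pos (measure_ball_pos _ _ δ0).ne' measure_ball_lt_top.ne
  have := ENNReal.toReal_le_of_le_ofReal (by positivity) (key _ (div_pos v0 four_pos))
  linarith

end Pool.Agent.Lib.K94
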