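import Pool.Agent.Lib.KR94.Alg
import Pool.Agent.Lib.KR94.Cut

/-! A smooth vector field on whose direction the normalised fields `G⁻¹ H` concentrate is
holomorphic. -/

open scoped Classical Topology ENNReal ContDiff ComplexOrder Matrix
open Set MeasureTheory Complex Metric Filter Matrix

noncomputable section

namespace Pool.Agent.Lib.K94

open Pool.Agent.Lib.SV (E)
open Pool.Agent.Lib.HS32 Pool.Agent.Lib.HS76 Pool.Agent.Lib.HS68

variable {n : ℕ}

/-- The trace of `H` with respect to `G`. -/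
def sS (G H : E n → Mat n) (z : E n) : ℝ := ((G z)⁻¹ * H z).trace.re

/-- The squared norm of the gradient of a real function. -/
def gN (G : E n → Mat n) (f : E n → ℝ) (z : E n) : ℝ :=
  ((G z)⁻¹ * dd (fun w => (f w : ℂ)) (fun w => (f w : ℂ)) z).trace.re

/-- The gradient term in the logarithmic form of the identity of Chern and Lu. -/
def eT (G H : E n → Mat n) (z : E n) : ℝ := (en G H H z).re - gN G (sS G H) z / sS G H z

/-- The defect of concentration on the direction of `V`. -/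
def qV (G H : E n → Mat n) (V : E n → E n) (z : E n) : ℝ :=
  1 - nq (H z * (G z)⁻¹ * H z) (V z) / (nq (H z) (V z) * sS G H z)

/-- The projection on the orthogonal complement of `V`. -/
def pN (H : E n → Mat n) (V : E n → E n) (z : E n) : Mat n :=
  1 - (star (V z) ⬝ᵥ H z *ᵥ V z)⁻¹ • (vecMulVec (V z) (star (V z)) * H z)

section pt

variable {G H : E n → Mat n} {V : E n → E n} {z : E n}

theorem nq_eq {T : Mat n} (hT : T.PosSemidef) (v : E n) : star v ⬝ᵥ T *ᵥ v = (nq T v : ℂ) :=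
  Complex.ext rfl (by simpa using (Complex.le_def.1 (hT.dotProduct_mulVec_nonneg v)).2.symm)

theorem smM_vv {V W : E n → E n} (hV : ContDiffAt ℝ ∞ V z) (hW : ContDiffAt ℝ ∞ W z) :
    SmM (fun w => vecMulVec (V w) (W w)) z := fun i j =>
  (contDiffAt_pi.1 hV i).mul (contDiffAt_pi.1 hW j)

theorem smM_pN (hH : Loc H z) (hV : ContDiffAt ℝ ∞ V z) (h0 : V z ≠ 0) : SmM (pN H V) z := by
  have s : ContDiffAt ℝ ∞ (fun w => star (V w)) z :=
    contDiffAt_pi.2 fun i => cd_star (contDiffAt_pi.1 hV i)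
  refine (smM_const 1).sub (SmM.smul (ContDiffAt.inv ?_ (hH.pos.dotProduct_mulVec_pos h0).ne')
    ((smM_vv hV s).mul hH.sm))
  exact ContDiffAt.sum fun i _ =>
    (contDiffAt_pi.1 s i).mul (contDiffAt_pi.1 (hH.sm.mulVec hV) i)

theorem pN_prop (hH : (H z).PosDef) (h0 : V z ≠ 0) :
    pN H V z * pN H V z = pN H V z ∧ (pN H V z)ᴴ * H z = H z * pN H V z ∧
      (∀ u : E n, pN H V z * vecMulVec (V z) u = 0) ∧
      (∀ u : E n, u ⬝ᵥ V z = 1 → vecMulVec (V z) u * (1 - pN H V z) = 1 - pN H V z) ∧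
      ∀ B : Mat n, ((1 - pN H V z) * (B * H z)).trace =
        (star (V z) ⬝ᵥ (H z * B * H z) *ᵥ V z) / (star (V z) ⬝ᵥ H z *ᵥ V z) ∧
        ∀ u : E n, (1 - pN H V z) * (B * H z) * vecMulVec (V z) u =
          ((star (V z) ⬝ᵥ (H z * B * H z) *ᵥ V z) / (star (V z) ⬝ᵥ H z *ᵥ V z)) •
            vecMulVec (V z) u := by
  have p := (hH.dotProduct_mulVec_pos h0).ne'
  have e : ∀ (T : Mat n) (u : E n), vecMulVec (V z) (star (V z)) * T * vecMulVec (V z) u =
      (star (V z) ⬝ᵥ T *ᵥ V z) • vecMulVec (V z) u := fun T u => by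
    rw [Matrix.mul_assoc, mul_vecMulVec, vecMulVec_mul_vecMulVec, vecMulVec_smul]
  have a3 : ∀ u : E n, pN H V z * vecMulVec (V z) u = 0 := fun u => by
    rw [pN, Matrix.sub_mul, Matrix.smul_mul, e, smul_smul, inv_mul_cancel₀ p]
    simp
  refine ⟨?_, ?_, a3, fun u hu => ?_, fun B => ⟨?_, fun u => ?_⟩⟩
  · nth_rewrite 2 [pN]
    rw [Matrix.mul_sub, Matrix.mul_smul, ← Matrix.mul_assoc, a3]
    simp
  · rw [pN, conjTranspose_sub, conjTranspose_smul, conjTranspose_mul, hH.1.eq,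
      conjTranspose_vecMulVec, star_star, nq_eq hH.posSemidef]
    simp [Matrix.sub_mul, Matrix.mul_sub, Matrix.mul_assoc]
  · rw [pN, sub_sub_cancel, Matrix.mul_smul, ← Matrix.mul_assoc, vecMulVec_mul_vecMulVec, hu,
      one_smul]
  · rw [pN, sub_sub_cancel, Matrix.smul_mul, trace_smul, Matrix.mul_assoc, vecMulVec_mul,
      trace_vecMulVec, dotProduct_comm (V z), ← dotProduct_mulVec, smul_eq_mul, div_eq_inv_mul,
      Matrix.mul_assoc]
  · rw [pN, sub_sub_cancel, Matrix.smul_mul, Matrix.smul_mul, Matrix.mul_assoc _ (H z), e,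
      smul_smul, div_eq_inv_mul, Matrix.mul_assoc]

/-- The normalised field and its derivative. -/
theorem fld (hn : 0 < n) (hG : ∀ᶠ w in 𝓝 z, (G w).PosDef) (hG' : Loc G z) (hH : Loc H z)
    {c : ℝ} (h2 : (c • (1 : Mat n) - H z).PosSemidef) (l : Fin n) :
    SmM (fun w => (sS G H w : ℂ)⁻¹ • (G w)⁻¹ * H w) z ∧ 0 < sS G H z ∧ 0 ≤ eT G H z ∧
    ∃ D : Mat n, dMb l (fun w => (sS G H w : ℂ)⁻¹ • (G w)⁻¹ * H w) z =
      -((sS G H z : ℂ)⁻¹ • (G z)⁻¹ * Dᴴ * H z) ∧
      (H z * (D * ((sS G H z : ℂ)⁻¹ • (G z)⁻¹) * Dᴴ)).trace.re ≤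
        sS H G z * c * (eT G H z / sS G H z) := by
  have : Nonempty (Fin n) := ⟨⟨0, hn⟩⟩
  have s0 : 0 < sS G H z := tr_pos hG'.pos hH.pos
  have s1 : (sS G H z : ℂ) ≠ 0 := by exact_mod_cast s0.ne'
  have ev : (fun w => (sS G H w : ℂ)) =ᶠ[𝓝 z] fun w => ((G w)⁻¹ * H w).trace := by
    filter_upwards [hG, hH.herm] with w h1 h2
    exact (tr_eq_re h1 h2).symm
  have q1 := hG'.smM_inv.mul hH.sm
  have sr : ContDiffAt ℝ ∞ (sS G H) z := cd_re q1.trace
  have sc := cd_ofReal sr
  have si : ContDiffAt ℝ ∞ (fun w => (sS G H w : ℂ)⁻¹) z := sc.inv s1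
  have h1 : ∀ k, dz k (fun w => (sS G H w : ℂ)) z = -((G z)⁻¹ * H z * df G H k z).trace :=
    fun k => by rw [dz_congr ev, hG'.dz_trace_quot hH]
  have h3 : ∀ k, dzb k (fun w => (sS G H w : ℂ)) z = -((G z)⁻¹ * (df G H k z)ᴴ * H z).trace :=
    fun k => by rw [dzb_congr ev, dzb_trace q1, hG'.dMb_quot hH, trace_neg]
  have h4 : ∀ k, star (dz k (fun w => (sS G H w : ℂ)) z) = dzb k (fun w => (sS G H w : ℂ)) z :=
    fun k => by rw [← star_dzb_ofReal (cd_diff sc), star_star]
  have m := ip3_mod s1 (conj_ofReal _) ev.eq_of_nhds.symm h1 h3 h4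
  have m2 : (ip3 (G z)⁻¹ (G z)⁻¹ (H z) (fun k => df G H k z + (dz k (fun w => (sS G H w : ℂ)) z /
      sS G H z) • 1) fun k => df G H k z + (dz k (fun w => (sS G H w : ℂ)) z /
      sS G H z) • 1).re = eT G H z := by
    rw [m, sub_re, div_ofReal_re, ip3_cyc]
    rfl
  refine ⟨(hG'.smM_inv.smul si).mul hH.sm, s0, ?_,
    df G H l z + (dz l (fun w => (sS G H w : ℂ)) z / sS G H z) • 1, ?_, ?_⟩
  · rw [← m2]
    exact ip3_nonneg hG'.pos.inv.posSemidef hG'.pos.inv.posSemidef hH.pos.posSemidef _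
  · simp only [Matrix.smul_mul]
    rw [dMb_smul (cd_diff si) q1, dzb_inv (cd_diff sc) s1, hG'.dMb_quot hH,
      conjTranspose_add, conjTranspose_smul, star_div₀, h4, conjTranspose_one, Matrix.mul_add,
      Matrix.add_mul, smul_add, Matrix.mul_smul, Matrix.smul_mul, Matrix.mul_one, smul_smul,
      Complex.star_def, conj_ofReal, smul_neg, neg_add, add_comm, ← neg_smul, ← neg_smul]
    congr 2
    field_simp
  · have := tr_le_ip3 hG'.pos hH.pos h2 (fun k => df G H k z +
      (dz k (fun w => (sS G H w : ℂ)) z / sS G H z) • 1) l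
    rw [m2] at this
    rw [Matrix.mul_smul, Matrix.smul_mul, Matrix.mul_smul, trace_smul, smul_eq_mul, ← ofReal_inv,
      re_ofReal_mul, ← mul_div_assoc, div_eq_inv_mul (_ * eT G H z)]
    exact mul_le_mul_of_nonneg_left this (inv_pos.2 s0).le

end pt

theorem ev_bd {K : Set (E n)} (hK : IsCompact K) {T : E n → Mat n} (hT : ∀ z ∈ K, SmM T z) :
    ∀ᶠ c in atTop, ∀ z ∈ K, Bd (T z) c ∧ (T z).trace.re ≤ c := by
  have e : ∀ f : E n → ℂ, (∀ z ∈ K, ContDiffAt ℝ ∞ f z) → ∀ᶠ c in atTop, ∀ z ∈ K, ‖f z‖ ≤ c :=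
    fun f hf => by
      obtain ⟨c, hc⟩ := hK.exists_bound_of_continuousOn fun z hz =>
        (hf z hz).continuousAt.continuousWithinAt
      exact (eventually_ge_atTop c).mono fun d hd z hz => (hc z hz).trans hd
  filter_upwards [eventually_all.2 fun i => eventually_all.2 fun j => e _ fun z hz => hT z hz i j,
    e _ fun z hz => (hT z hz).trace] with c h1 h2 z hz
  exact ⟨fun i j => h1 i j z hz, (re_le_norm _).trans (h2 z hz)⟩

theorem amgm {p x y : ℝ} (hy : 0 ≤ y) (h0 : 0 ≤ x) :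
    Real.exp (p / 2) * √(x * y) ≤ x + Real.exp p * y := by
  have e : Real.exp p = Real.exp (p / 2) ^ 2 := by rw [← Real.exp_nat_mul]; congr 1; push_cast; ring
  rw [Real.sqrt_mul h0, e]
  nlinarith [Real.sq_sqrt h0, Real.sq_sqrt hy, sq_nonneg (√x - Real.exp (p / 2) * √y),
    sq_nonneg (Real.exp (p / 2) * √y)]

/-- The vector field is holomorphic. -/
theorem hol {ι : Type} (L : Filter ι) [L.NeBot] {U : Set (E n)} (hU : IsOpen U)
    {H : E n → Mat n} {V : E n → E n} {i₀ : Fin n} {G : ι → E n → Mat n} {φ : ι → E n → ℝ}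
    (hH : ∀ z ∈ U, Loc H z) (hV : ∀ z ∈ U, ContDiffAt ℝ ∞ V z ∧ V z i₀ = 1)
    (hG : ∀ᶠ a in L, ∀ z ∈ U, Loc (G a) z ∧ ContDiffAt ℝ ∞ (φ a) z ∧ φ a z ≤ 0)
    (hK : ∀ K, IsCompact K → K ⊆ U → ∃ (C : ℝ) (R : ι → E n → ℝ),
      (∀ᶠ a in L, (∀ z ∈ K, sS H (G a) z + Real.exp (φ a z) * (eT (G a) H z / sS (G a) H z) +
          Real.exp (φ a z) * gN H (φ a) z ≤ R a z) ∧
        ∫⁻ z in K, ENNReal.ofReal (R a z) ≤ ENNReal.ofReal C ∧
        ∀ A : ℝ, 0 < A → volume {z | z ∈ K ∧ φ a z < -A} ≤ ENNReal.ofReal (C / A)) ∧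
      Tendsto (fun a => ∫⁻ z in K, ENNReal.ofReal (Real.exp (φ a z) * qV (G a) H V z ^ 2)) L
        (𝓝 0)) :
    ∀ z ∈ U, ∀ l i, dzb l (fun y => V y i) z = 0 := by
  intro z₀ hz₀ l i
  have hn : 0 < n := i.pos
  obtain ⟨ρ, ρ0, hρ⟩ := nhds_basis_closedBall.mem_iff.1 (hU.mem_nhds hz₀)
  have cK := isCompact_closedBall z₀ ρ
  have bK : ball z₀ ρ ⊆ closedBall z₀ ρ := ball_subset_closedBall
  obtain ⟨C, R, g1, g2⟩ := hK _ cK hρ
  have v0 : ∀ z ∈ U, V z ≠ 0 := fun z hz h => by simpa [h] using (hV z hz).2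
  set A : E n → Mat n := fun w => vecMulVec (V w) (Pi.single i₀ 1) with hA
  have sA : ∀ z ∈ U, SmM A z := fun z hz => smM_vv (hV z hz).1 contDiffAt_const
  have sN : ∀ z ∈ U, SmM (pN H V) z := fun z hz => smM_pN (hH z hz) (hV z hz).1 (v0 z hz)
  have pp := fun z (hz : z ∈ U) => pN_prop (V := V) (hH z hz).pos (v0 z hz)
  obtain ⟨c, c1, k1, k2, k3, k4, k5, k6⟩ := ((eventually_ge_atTop (1 : ℝ)).and
    ((ev_bd cK fun z hz => (hH z (hρ hz)).sm).and ((ev_bd cK fun z hz => sN z (hρ hz)).and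
    ((ev_bd cK fun z hz => sA z (hρ hz)).and ((ev_bd cK fun z hz => (sN z (hρ hz)).dMb l).and
    ((ev_bd cK fun z hz => (sA z (hρ hz)).dMb l).and
    (ev_bd cK fun z hz => (hH z (hρ hz)).smM_inv))))))).exists
  have n1 : (1 : ℝ) ≤ n := Nat.one_le_cast.2 hn
  set k : ℝ := 4 * n ^ 3 * c ^ 4 with hk
  have k0 : 1 ≤ k := by nlinarith [one_le_pow₀ (n := 3) n1, one_le_pow₀ (n := 4) c1]
  set C' := k + k * ((volume (closedBall z₀ ρ)).toReal + c * |C|) + |C| with hC'
  have C1 : 0 ≤ k * ((volume (closedBall z₀ ρ)).toReal + c * |C|) := by positivity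
  obtain ⟨T, hT, good⟩ := (hG.and g1).exists_mem
  have := (inferInstance : L.NeBot).comap_of_range_mem (m := (Subtype.val : T → ι))
    (by simpa using hT)
  have key : pN H V z₀ * dMb l A z₀ = 0 := by
    ext p r
    refine cut (comap (Subtype.val : T → ι) L) isOpen_ball C' l
      (fun z => (pN H V z * dMb l A z) p r)
      (fun a z => (pN H V z * ((sS (G a) H z : ℂ)⁻¹ • (G a z)⁻¹ * H z) * A z) p r)
      (fun a => φ a) (fun a => qV (G a) H V) (fun a z => k * (1 + c * R a z))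
      (fun z hz => (((sN z (hρ (bK hz))).mul ((sA z (hρ (bK hz))).dMb l))
        p r).continuousAt.continuousWithinAt) (fun a z hz => ?_) (fun a => ?_)
      (fun a B B0 => ?_) ?_ z₀ (mem_ball_self ρ0)
    · have zK := bK hz
      have zU := hρ zK
      obtain ⟨a, ha⟩ := a
      obtain ⟨a1, a2, -⟩ := good a ha
      have u1 : (c • (1 : Mat n) - H z).PosSemidef := by
        rw [rsm]
        exact le_tr_smul PosDef.one (hH z zU).pos.posSemidef (by simpa using (k1 z zK).2)
      have u2 := le_tr_smul (hH z zU).pos PosSemidef.one (c := c) (by simpa using (k6 z zK).2)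
      have F := fun w (hw : w ∈ U) {c : ℝ} => fld hn (c := c)
        ((hU.eventually_mem hw).mono fun y hy => (a1 y hy).1.pos) (a1 w hw).1 (hH w hw)
      obtain ⟨f1, f2, f3, D, f4, f5⟩ := F z zU u1 l
      have tq : ∀ w ∈ U, ((sS (G a) H w : ℂ)⁻¹ • (G a w)⁻¹ * H w).trace = 1 ∧
          (star (V w) ⬝ᵥ (H w * ((sS (G a) H w : ℂ)⁻¹ • (G a w)⁻¹) * H w) *ᵥ V w) /
            (star (V w) ⬝ᵥ H w *ᵥ V w) = ((1 - qV (G a) H V w : ℝ) : ℂ) := fun w hw => by
        have : Nonempty (Fin n) := ⟨i⟩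
        have s0 : (sS (G a) H w : ℂ) ≠ 0 := by
          exact_mod_cast (tr_pos (a1 w hw).1.pos (hH w hw).pos).ne'
        have s1 := (a1 w hw).1.pos.inv.posSemidef.mul_mul_conjTranspose_same (H w)
        rw [(hH w hw).pos.1.eq] at s1
        constructor
        · rw [Matrix.smul_mul, trace_smul, tr_eq_re (a1 w hw).1.pos (hH w hw).pos.1]
          exact inv_mul_cancel₀ s0
        · rw [Matrix.mul_smul, Matrix.smul_mul, smul_mulVec, dotProduct_smul, nq_eq s1,
            nq_eq (hH w hw).pos.posSemidef, qV, sub_sub_cancel, smul_eq_mul]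
          push_cast
          ring
      have tq2 : ∀ w ∈ U, (pN H V w * ((sS (G a) H w : ℂ)⁻¹ • (G a w)⁻¹ * H w)).trace =
          qV (G a) H V w := fun w hw => by
        have := ((pp w hw).2.2.2.2 ((sS (G a) H w : ℂ)⁻¹ • (G a w)⁻¹)).1
        rw [(tq w hw).2, Matrix.sub_mul, Matrix.one_mul, trace_sub, (tq w hw).1] at this
        push_cast at this
        linear_combination -this
      have ev : (fun w => (qV (G a) H V w : ℂ)) =ᶠ[𝓝 z]
          fun w => (pN H V w * ((sS (G a) H w : ℂ)⁻¹ • (G a w)⁻¹ * H w)).trace :=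
        (hU.eventually_mem zU).mono fun w hw => (tq2 w hw).symm
      have sP := (sN z zU).mul f1
      have t0 : 0 ≤ sS H (G a) z := tr_nonneg (hH z zU).pos (a1 z zU).1.pos.posSemidef
      have y0 : 0 ≤ eT (G a) H z / sS (G a) H z := div_nonneg f3 f2.le
      have dφ := cd_diff (cd_ofReal (a1 z zU).2.1)
      have pd : (dd (fun w => (φ a w : ℂ)) (fun w => (φ a w : ℂ)) z).PosSemidef := by
        have := posSemidef_vecMulVec_self_star fun j => dzb j (fun w => (φ a w : ℂ)) z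
        refine (congrArg PosSemidef ?_).mp this
        ext j m
        rw [vecMulVec_apply, Pi.star_apply, star_dzb_ofReal dφ, dd_apply]
      have g0 : 0 ≤ gN H (φ a) z := tr_nonneg (hH z zU).pos pd
      have g3 : ‖dzb l (fun w => (φ a w : ℂ)) z‖ ≤ √(1 * (c * gN H (φ a) z)) := by
        refine Real.le_sqrt_of_sq_le ?_
        have := HS.dbp_grad (hH z zU).pos u1 pd l
        rwa [dd_apply, ← star_dzb_ofReal dφ, norm_mul, norm_star, ← sq, ← one_mul (c * _)] at this
      obtain ⟨r1, r2, r3, r4, r5⟩ := alg (D := D) (Z := √(sS H (G a) z * c *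
          (eT (G a) H z / sS (G a) H z))) hn (hH z zU).pos.posSemidef
        (by
          rw [← ofReal_inv, ← rsm]
          exact (a1 z zU).1.pos.inv.posSemidef.smul (inv_pos.2 f2).le)
        (tq z zU).1 (pp z zU).1 (pp z zU).2.1 (tq2 z zU)
        (by rw [((pp z zU).2.2.2.2 _).2, (tq z zU).2])
        (by
          rw [← dMb_mul (sN z zU) (sA z zU), dMb_congr (T := fun _ => 0)
            ((hU.eventually_mem zU).mono fun w hw => (pp w hw).2.2.1 _), dMb_const])
        (by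
          rw [← dMb_mul (sN z zU) (sN z zU)]
          exact dMb_congr ((hU.eventually_mem zU).mono fun w hw => (pp w hw).1))
        c1 u2 (k1 z zK).1 (k2 z zK).1 (k3 z zK).1 (k4 z zK).1 (k5 z zK).1 (Real.sqrt_nonneg _)
        (by rwa [Real.sq_sqrt (by positivity)])
      rw [← hk] at r3 r4 r5
      have e1 : Real.exp (φ a z / 2) ≤ 1 := Real.exp_le_one_iff.2 (by linarith [(a1 z zU).2.2])
      have e0 := Real.exp_pos (φ a z / 2)
      have e2 := Real.exp_pos (φ a z)
      have b := a2 z zK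
      have b1 := amgm (p := φ a z) y0 (show 0 ≤ sS H (G a) z * c by positivity)
      have b2 := amgm (p := φ a z) (show 0 ≤ c * gN H (φ a) z by positivity) zero_le_one
      have b3 : Real.exp (φ a z / 2) * (√(qV (G a) H V z) * (k * (1 + √(sS H (G a) z * c *
          (eT (G a) H z / sS (G a) H z))))) ≤ √(qV (G a) H V z) * (k * (1 + c * R a z)) := by
        rw [mul_left_comm, mul_left_comm (Real.exp _)]
        gcongr
        nlinarith [mul_nonneg e2.le y0, mul_nonneg e2.le g0]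
      refine ⟨(sP.mul (sA z zU)) p r, (a1 z zU).2.1, ?_, (a1 z zU).2.2, r1, r2,
        (r3 p r).trans (mul_le_mul_of_nonneg_right ?_ (Real.sqrt_nonneg _)), ?_, ?_, ?_⟩
      · exact (cd_re sP.trace).congr_of_eventuallyEq (ev.mono fun w hw => congrArg re hw)
      · linarith [abs_nonneg C]
      · refine le_trans (mul_le_mul_of_nonneg_left ?_ e0.le) b3
        have := r4 p r
        rwa [← f4, ← dMb_mul (sN z zU) f1, ← dMb_mul sP (sA z zU)] at this
      · refine le_trans (mul_le_mul_of_nonneg_left ?_ e0.le) b3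
        rwa [dzb_congr ev, dzb_trace sP, dMb_mul (sN z zU) f1, f4]
      · refine ((mul_le_mul_of_nonneg_left g3 e0.le).trans b2).trans ?_
        have : Real.exp (φ a z) * gN H (φ a) z ≤ R a z := by linarith [mul_nonneg e2.le y0]
        have h5 : 0 ≤ c * R a z := mul_nonneg (by linarith) ((mul_nonneg e2.le g0).trans this)
        nlinarith
    · obtain ⟨a, ha⟩ := a
      obtain ⟨-, -, a3, -⟩ := good a ha
      calc _ ≤ ∫⁻ z in closedBall z₀ ρ,
            (ENNReal.ofReal k + ENNReal.ofReal (k * c) * ENNReal.ofReal (R a z)) := by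
            refine (lintegral_mono_set bK).trans (lintegral_mono fun z => ?_)
            rw [← ENNReal.ofReal_mul (by positivity), mul_add, mul_one, mul_assoc k c]
            exact ENNReal.ofReal_add_le
        _ ≤ ENNReal.ofReal k * ENNReal.ofReal (volume (closedBall z₀ ρ)).toReal +
            ENNReal.ofReal (k * c) * ENNReal.ofReal |C| := by
            rw [lintegral_add_left measurable_const, setLIntegral_const,
              lintegral_const_mul' _ _ ENNReal.ofReal_ne_top,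
              ENNReal.ofReal_toReal cK.measure_lt_top.ne]
            gcongr
            exact a3.trans (ENNReal.ofReal_le_ofReal (le_abs_self C))
        _ ≤ _ := by
            rw [← ENNReal.ofReal_mul (by positivity), ← ENNReal.ofReal_mul (by positivity),
              ← ENNReal.ofReal_add (by positivity) (by positivity)]
            exact ENNReal.ofReal_le_ofReal (by nlinarith [abs_nonneg C])
    · refine (measure_mono fun z hz => ?_).trans (((good a a.2).2.2.2 B B0).trans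
        (ENNReal.ofReal_le_ofReal (div_le_div_of_nonneg_right ?_ B0.le)))
      · exact ⟨bK hz.1, hz.2⟩
      · linarith [le_abs_self C]
    · exact tendsto_of_tendsto_of_tendsto_of_le_of_le tendsto_const_nhds (g2.comp tendsto_comap)
        (fun _ => zero_le) fun a => lintegral_mono_set bK
  have a1 : A z₀ * dMb l A z₀ = 0 := by
    ext p r
    have : dMb l A z₀ i₀ r = 0 := by
      rw [dMb_apply, dzb_congr (g := fun _ => (Pi.single i₀ 1 : E n) r)
        ((hU.eventually_mem hz₀).mono fun w hw => by simp [hA, vecMulVec_apply, (hV w hw).2]),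
        dzb_const]
    rw [hA, vecMulVec_mul, vecMulVec_apply, single_one_vecMul, ← hA, Matrix.row_apply, this,
      mul_zero, Matrix.zero_apply]
  have a2 := (pp z₀ hz₀).2.2.2.1 (Pi.single i₀ 1) (by simpa using (hV z₀ hz₀).2)
  have a3 : dMb l A z₀ = 0 := by
    have e : dMb l A z₀ = (1 - pN H V z₀) * dMb l A z₀ := by
      rw [Matrix.sub_mul, key, Matrix.one_mul, sub_zero]
    rw [e, ← a2, Matrix.mul_assoc, ← e]
    exact a1
  simpa [hA, vecMulVec_apply] using congrFun (congrFun a3 i) i₀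

end Pool.Agent.Lib.K94
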