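import Pool.Agent.Lib.HS.B_DBP

/-! Pointwise bounds for a field of trace one that is nearly a projection of rank one. -/

open scoped Classical ComplexOrder Matrix
open Complex Matrix

noncomputable section

namespace Pool.Agent.Lib.K94

open Pool.Agent.Lib.HS32 Pool.Agent.Lib.HS76

variable {n : ℕ} {A B D H N dA dN : Mat n} {a b c q Z : ℝ}

/-- All entries are bounded by `c`. -/
def Bd (A : Mat n) (c : ℝ) : Prop := ∀ i j, ‖A i j‖ ≤ c

theorem Bd.mul (h1 : Bd A a) (h2 : Bd B b) : Bd (A * B) (n * (a * b)) := fun i j => by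
  rw [Matrix.mul_apply]
  refine (norm_sum_le _ _).trans ((Finset.sum_le_card_nsmul _ _ (a * b) fun k _ => ?_).trans ?_)
  · rw [norm_mul]
    exact mul_le_mul (h1 i k) (h2 k j) (norm_nonneg _) ((norm_nonneg _).trans (h1 i k))
  · simp

theorem Bd.tr (h1 : Bd A a) : ‖A.trace‖ ≤ n * a :=
  (norm_sum_le _ _).trans ((Finset.sum_le_card_nsmul _ _ a fun k _ => h1 k k).trans (by simp))

theorem Bd.ct (h1 : Bd A a) : Bd Aᴴ a := fun i j => by
  rw [conjTranspose_apply, norm_star]; exact h1 j i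

theorem Bd.add (h1 : Bd A a) (h2 : Bd B b) : Bd (A + B) (a + b) := fun i j =>
  norm_add_le_of_le (h1 i j) (h2 i j)

theorem Bd.sub (h1 : Bd A a) (h2 : Bd B b) : Bd (A - B) (a + b) := fun i j =>
  norm_sub_le_of_le (h1 i j) (h2 i j)

theorem Bd.smul (h1 : Bd A a) (hq : 0 ≤ q) : Bd ((q : ℂ) • A) (q * a) := fun i j => by
  rw [Matrix.smul_apply, norm_smul, Complex.norm_real, Real.norm_of_nonneg hq]
  exact mul_le_mul_of_nonneg_left (h1 i j) hq

theorem Bd.mono (h1 : Bd A a) (h : a ≤ b) : Bd A b := fun i j => (h1 i j).trans h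

theorem bd_cs (hB : B.PosSemidef) (hc : 0 ≤ c) (h1 : ((c : ℂ) • H - 1).PosSemidef) (X Y : Mat n)
    (ha : 0 ≤ a) (hb : 0 ≤ b) (h2 : (H * (X * B * Xᴴ)).trace.re ≤ a ^ 2)
    (h3 : (H * (Y * B * Yᴴ)).trace.re ≤ b ^ 2) : Bd (X * B * Yᴴ) (c * (a * b)) := by
  intro i j
  have e : ∀ (X Y : Mat n) i j, star (Xᴴ *ᵥ Pi.single i 1) ⬝ᵥ B *ᵥ (Yᴴ *ᵥ Pi.single j 1) =
      (X * B * Yᴴ) i j := fun X Y i j => by
    rw [star_mulVec, conjTranspose_conjTranspose, ← dotProduct_mulVec, mulVec_mulVec,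
      mulVec_mulVec]
    simp
  have d : ∀ (X : Mat n) (a : ℝ) i, (H * (X * B * Xᴴ)).trace.re ≤ a ^ 2 →
      ((X * B * Xᴴ) i i).re ≤ c * a ^ 2 := fun X a i h => by
    have p := hB.mul_mul_conjTranspose_same X
    have := tr_mul_mono p h1
    rw [Matrix.mul_one, Matrix.mul_smul, trace_smul, smul_eq_mul, re_ofReal_mul,
      trace_mul_comm _ H] at this
    exact (re_le_norm _).trans ((entry_le_trace p i i).trans
      (this.trans (mul_le_mul_of_nonneg_left h hc)))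
  have s := psd_cs hB (Xᴴ *ᵥ Pi.single i 1) (Yᴴ *ᵥ Pi.single j 1)
  rw [e, e, e] at s
  have y0 : 0 ≤ ((Y * B * Yᴴ) j j).re :=
    (Complex.le_def.1 (hB.mul_mul_conjTranspose_same Y).diag_nonneg).1
  refine (pow_le_pow_iff_left₀ (norm_nonneg _) (by positivity) two_ne_zero).1 (s.trans ?_)
  calc _ ≤ c * a ^ 2 * (c * b ^ 2) := mul_le_mul (d X a i h2) (d Y b j h3) y0 (by positivity)
    _ = _ := by ring

theorem tr_idem (h1 : N * N = N) (h2 : Nᴴ * H = H * N) :
    (H * (N * B * Nᴴ)).trace = (N * (B * H)).trace := by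
  rw [← Matrix.mul_assoc, trace_mul_comm, ← Matrix.mul_assoc, ← Matrix.mul_assoc,
    ← Matrix.mul_assoc, h2, Matrix.mul_assoc H, h1, Matrix.mul_assoc, trace_mul_comm,
    Matrix.mul_assoc]

theorem tr_idem_nonneg (hH : H.PosSemidef) (hB : B.PosSemidef) (h1 : N * N = N)
    (h2 : Nᴴ * H = H * N) : 0 ≤ (N * (B * H)).trace := by
  rw [← tr_idem h1 h2]
  exact tr_mul_nonneg hH (hB.mul_mul_conjTranspose_same N)

/-- The pointwise bounds. -/
theorem alg (hn : 0 < n) (hH : H.PosSemidef) (hB : B.PosSemidef) (t1 : (B * H).trace = 1)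
    (n1 : N * N = N) (n2 : Nᴴ * H = H * N) (hq : (N * (B * H)).trace = q)
    (r1 : (1 - N) * (B * H) * A = ((1 - q : ℝ) : ℂ) • A) (d1 : dN * A + N * dA = 0)
    (d2 : dN * N + N * dN = dN) (hc : 1 ≤ c) (c1 : ((c : ℂ) • H - 1).PosSemidef) (b1 : Bd H c)
    (b2 : Bd N c) (b3 : Bd A c) (b4 : Bd dN c) (b5 : Bd dA c) (hZ : 0 ≤ Z)
    (z1 : (H * (D * B * Dᴴ)).trace.re ≤ Z ^ 2) :
    0 ≤ q ∧ q ≤ 1 ∧ Bd (N * (B * H) * A) (4 * n ^ 3 * c ^ 4 * √q) ∧
      Bd ((dN * (B * H) + N * -(B * Dᴴ * H)) * A + N * (B * H) * dA + N * dA)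
        (√q * (4 * n ^ 3 * c ^ 4 * (1 + Z))) ∧
      ‖(dN * (B * H) + N * -(B * Dᴴ * H)).trace‖ ≤ √q * (4 * n ^ 3 * c ^ 4 * (1 + Z)) := by
  have q0 : 0 ≤ q := by
    have := tr_idem_nonneg hH hB n1 n2
    rw [hq] at this
    exact_mod_cast this
  have q1 : q ≤ 1 := by
    have := tr_idem_nonneg (N := 1 - N) hH hB
      (by rw [Matrix.sub_mul, Matrix.mul_sub, Matrix.mul_sub, n1]; simp)
      (by rw [conjTranspose_sub, Matrix.sub_mul, Matrix.mul_sub, n2]; simp)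
    rw [Matrix.sub_mul, Matrix.one_mul, trace_sub, t1, hq, sub_nonneg] at this
    exact_mod_cast this
  have c0 : 0 ≤ c := by linarith
  have r0 : 0 ≤ √q := Real.sqrt_nonneg q
  have r2 : (H * (N * B * Nᴴ)).trace.re ≤ √q ^ 2 := by
    rw [tr_idem n1 n2, hq, Real.sq_sqrt q0, ofReal_re]
  have hX := bd_cs hB c0 c1 N 1 r0 zero_le_one r2 (by
    rw [Matrix.one_mul, conjTranspose_one, Matrix.mul_one, trace_mul_comm, t1]; simp)
  rw [conjTranspose_one, Matrix.mul_one] at hX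
  have hY := bd_cs hB c0 c1 N D r0 hZ r2 z1
  have r3 : q ≤ √q := by nlinarith [Real.mul_self_sqrt q0, Real.sqrt_le_one.mpr q1]
  have n1' : (1 : ℝ) ≤ n := Nat.one_le_cast.2 hn
  have m : ∀ i j : ℕ, i ≤ 3 → j ≤ 4 → (n : ℝ) ^ i * c ^ j * √q ≤ n ^ 3 * c ^ 4 * √q :=
    fun i j hi hj => by gcongr
  have m1 := m 2 3 (by norm_num) (by norm_num)
  have m2 := m 1 2 (by norm_num) (by norm_num)
  have m3 := m 3 3 (by norm_num) (by norm_num)
  have m4 := m 2 2 (by norm_num) (by norm_num)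
  have m0 : 0 ≤ (n : ℝ) ^ 3 * c ^ 4 * √q := by positivity
  refine ⟨q0, q1, ?_, ?_, ?_⟩
  · rw [← Matrix.mul_assoc N]
    exact ((hX.mul b1).mul b3).mono (by nlinarith)
  · have e : (dN * (B * H) + N * -(B * Dᴴ * H)) * A + N * (B * H) * dA + N * dA =
        (q : ℂ) • (N * dA) + dN * (N * B * H * A) - N * B * Dᴴ * H * A + N * B * H * dA := by
      have e1 : B * H * A = ((1 - q : ℝ) : ℂ) • A + N * B * H * A := by
        rw [← r1]; simp only [Matrix.sub_mul, Matrix.one_mul, Matrix.mul_assoc]; abel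
      have e2 : dN * A = -(N * dA) := eq_neg_of_add_eq_zero_left d1
      rw [Matrix.add_mul, Matrix.mul_assoc dN, e1, Matrix.mul_add, Matrix.mul_smul, e2]
      simp only [Matrix.mul_neg, Matrix.neg_mul, Matrix.mul_assoc, ofReal_sub, ofReal_one,
        sub_smul, one_smul, smul_neg]
      abel
    rw [e]
    refine (((((b2.mul b5).smul q0).add (b4.mul ((hX.mul b1).mul b3))).sub
      ((hY.mul b1).mul b3)).add ((hX.mul b1).mul b5)).mono ?_
    nlinarith [mul_le_mul_of_nonneg_right m1 hZ, mul_nonneg m0 hZ,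
      mul_le_mul_of_nonneg_right r3 (show 0 ≤ (n : ℝ) * (c * c) by positivity)]
  · have e : (dN * (B * H) + N * -(B * Dᴴ * H)).trace =
        (dN * (N * B * H)).trace + (dN * ((N * B)ᴴ * H)).trace - (N * B * Dᴴ * H).trace := by
      nth_rewrite 1 [← d2]
      rw [conjTranspose_mul, hB.1.eq, Matrix.mul_assoc B Nᴴ, n2, Matrix.add_mul, trace_add,
        trace_add, Matrix.mul_assoc N dN, trace_mul_comm N (dN * _)]
      simp only [Matrix.mul_neg, trace_neg, Matrix.mul_assoc, sub_eq_add_neg]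
    rw [e]
    refine (norm_sub_le_of_le (norm_add_le_of_le (b4.mul (hX.mul b1)).tr
      (b4.mul (hX.ct.mul b1)).tr) (hY.mul b1).tr).trans ?_
    nlinarith [mul_le_mul_of_nonneg_right m4 hZ, mul_nonneg m0 hZ]

/-- The norm of the modified difference tensor. -/
theorem ip3_mod {S : ℂ} (hS : S ≠ 0) (hs : star S = S) (t : (A * H).trace = S)
    {D : Fin n → Mat n} {σ τ : Fin n → ℂ} (h1 : ∀ k, σ k = -(A * H * D k).trace)
    (h2 : ∀ k, τ k = -(A * (D k)ᴴ * H).trace) (h3 : ∀ k, star (σ k) = τ k) :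
    ip3 A A H (fun k => D k + (σ k / S) • 1) (fun k => D k + (σ k / S) • 1) =
      ip3 A A H D D - (A * Matrix.of fun i j => τ i * σ j).trace / S := by
  have e : (A * Matrix.of fun i j => τ i * σ j).trace = ∑ k, ∑ l, A k l * (τ l * σ k) := rfl
  simp only [e, ip3, Finset.sum_div, ← Finset.sum_sub_distrib]
  refine Finset.sum_congr rfl fun k _ => Finset.sum_congr rfl fun l _ => ?_
  rw [conjTranspose_add, conjTranspose_smul, star_div₀, h3, hs, conjTranspose_one]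
  simp only [Matrix.mul_add, Matrix.add_mul, Matrix.mul_smul, Matrix.smul_mul, Matrix.mul_one,
    trace_add, trace_smul, smul_eq_mul, t, ← neg_eq_iff_eq_neg.2 (h1 k),
    ← neg_eq_iff_eq_neg.2 (h2 l)]
  field_simp
  ring

theorem tr_le_ip3 {G : Mat n} (hG : G.PosDef) (hH : H.PosDef)
    (h2 : (c • (1 : Mat n) - H).PosSemidef) (D : Fin n → Mat n) (l : Fin n) :
    (H * (D l * G⁻¹ * (D l)ᴴ)).trace.re ≤ (H⁻¹ * G).trace.re * c * (ip3 G⁻¹ G⁻¹ H D D).re := by
  set t := (H⁻¹ * G).trace.re with ht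
  have t0 : 0 ≤ t := tr_nonneg hH hG.posSemidef
  have a1 : (((t * c : ℝ) : ℂ) • G⁻¹ - 1).PosSemidef := by
    refine HS.dbp_hinv hG ?_
    have b1 := le_tr_smul hH hG.posSemidef ht.ge
    rw [← rsm] at b1
    have := (h2.smul t0).add b1
    rwa [smul_sub, smul_smul, sub_add_sub_cancel] at this
  have a2 := ip3_le (a := t * c) (b := 1) (c := 1) (A' := G⁻¹) (H' := H) PosSemidef.one
    hG.inv.posSemidef hH.posSemidef a1 (by simpa using PosSemidef.zero)
    (by simpa using PosSemidef.zero) D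
  rw [mul_one, mul_one] at a2
  refine le_trans ?_ a2
  have e : ip3 1 G⁻¹ H D D = ∑ k, (H * (D k * G⁻¹ * (D k)ᴴ)).trace := by
    rw [ip3_cyc]
    simp [Matrix.one_apply, Matrix.mul_assoc]
  rw [e, re_sum]
  exact Finset.single_le_sum (f := fun k => (H * (D k * G⁻¹ * (D k)ᴴ)).trace.re)
    (fun k _ => (Complex.le_def.1 (tr_mul_nonneg hH.posSemidef
      (hG.inv.posSemidef.mul_mul_conjTranspose_same (D k)))).1) (Finset.mem_univ l)

end Pool.Agent.Lib.K94
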